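import Pool.Agent.Hx18.CI.Van
import Pool.Agent.Hx18.BB.Fil

/-!
# Main theorem on motives generated by curves and complete intersections
-/

set_option autoImplicit false

open CategoryTheory AlgebraicGeometry

universe u v w

namespace Pool.Agent.Hx18.CI

open Pool.Agent.H914 Pool.Agent.H914.VarClass Pool.Agent.H914.VarClass.Obj Pool.Agent.W492.BB
  Pool.Agent.W550.Corr Pool.Agent.TH133 Pool.Agent.Y148.BB Pool.Agent.Hx18.BB

set_option linter.unusedSectionVars false
set_option linter.unusedVariables false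

variable {k : Type u} [Field k] {𝒱 : VarClass k}

variable {C : TheoryData.{u, v, 0} 𝒱 ℚ} [hC : IsChowProj C] {K : Type w} [Field K]
  {H : WeilTheoryData.{u, v, w} C K} [hH : IsWeilProj H] {X Y Z W T P R V S : 𝒱.Obj}
  {Q : ∀ V : 𝒱.Obj, C.A (V.prod V) → Prop} {N : Family C}
  {D J E : ℕ∞}

omit hC in
lemma primitive_of_part {n : ℕ} {p : C.A (P.prod P)} (h : Part Q n P p) :
    IsPrimitive Q P p ∧ P.dim = n := by
  induction h with
  | piece T r hr => exact ⟨IsPrimitive.piece T r hr, rfl⟩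
  | prod n P T p r hp hr ih =>
    exact ⟨IsPrimitive.prod P T p r ih.1 (IsPrimitive.piece T r hr), by rw [dim_prod, ih.2]⟩

omit hC in
lemma product_of_primitive {p : C.A (P.prod P)} (h : IsPrimitive Q P p) : IsProduct Q P := by
  induction h with
  | piece T r hr =>
    rcases hr with hr | ⟨o, hT, -, -, -⟩
    · exact IsProduct.block T r hr
    · exact IsProduct.curve T hT
  | prod P R p r hp hr ih ih' => exact IsProduct.prod P R ih ih'

include hC hH

lemma pure_of_primitive (hQ : ∀ V q, Q V q → IsBlock H Q V q) {p : C.A (P.prod P)}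
    (h : IsPrimitive Q P p) : IsPure H P.dim P p := by
  induction h with
  | piece T r hr => exact isPure_piece hQ hr
  | prod P R p r hp hr ih ih' =>
    rw [dim_prod]
    exact ih.tens ih'

omit hH in
lemma generated_self {d : ℕ∞} (h : IsProduct Q P) (hd : (P.dim : ℕ∞) ≤ d) : Generated C Q d P :=
  ⟨P, ⟨h, hd⟩, dg C P, dg C P, dg_mem C P, dg_mem C P, comp_dg C _⟩

/-- The filtration `fil`. -/
def filF (H : WeilTheoryData.{u, v, w} C K) [hH : IsWeilProj H]
    (𝒬 : ℕ → ∀ P : 𝒱.Obj, C.A (P.prod P) → Prop) (D J : ℕ∞) : Filtration C where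
  F := fil H 𝒬 D J
  le_gr _ _ _ _ hz := hz.1
  anti _ _ _ := fil_anti _ _

/-- **Sufficiency.** -/
theorem exists_of (hN : IsAJKernel H N) (hQ : ∀ V q, Q V q → IsBlock H Q V q)
    (hfib : FibreTheorem C) (h : ∀ j : ℕ, 2 ≤ j → (j : ℕ∞) ≤ E → AJInjectiveOn Q N j)
    (hb : ∀ n i : ℕ, (n : ℕ∞) ≤ D → (i : ℕ∞) ≤ J → i ≤ n → (i : ℕ∞) ≤ E)
    (hb' : ∀ m n t l ν : ℕ, (m : ℕ∞) ≤ D → (n : ℕ∞) ≤ D → (t : ℕ∞) ≤ J → (l : ℕ∞) ≤ J → 2 ≤ ν →
      2 * l = n + ν → m + ν ≤ 2 * t → t ≤ m → ((m + l - t : ℕ) : ℕ∞) ≤ E) :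
    FiltrationExists H Q N D J := by
  have hinj : PartInj Q N.N E := by
    intro j hj hjE n P p hp hn z hz hpz
    obtain ⟨h1, h2⟩ := primitive_of_part hp
    exact h j hj hjE P p h1 (by omega) z hz hpz
  have hyp : Hyp H (Part Q) N.N D J E :=
    { kernel := kernel_of hN
      sys := sys_part hQ
      van := fun _ _ _ hp => van_part hfib (kernel_of hN) hQ hinj hp
      bound := hb
      bound' := hb' }
  refine ⟨filF H (Part Q) D J, ?_⟩
  have h1 := hyp.isBB (S := Generated C Q D) fun X hX => thr_generated hQ hX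
  exact
    { zero := h1.zero
      one := h1.one
      two := fun X hX j hj z => by
        have := h1.two X hX j hj
        exact (Submodule.ext_iff.1 this) z
      top := fun X hX j hj z hz => (Submodule.eq_bot_iff _).1 (h1.top X hX j hj) z hz
      stable := h1.stable
      shift := h1.shift }

/-- **Necessity.** -/
theorem injective_of (hQ : ∀ V q, Q V q → IsBlock H Q V q) (h : FiltrationExists H Q N D J) {j : ℕ}
    (hj : 2 ≤ j) (hjJ : (j : ℕ∞) ≤ J) (hjD : ((2 * j - 1 : ℕ) : ℕ∞) ≤ D) :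
    AJInjectiveOn Q N j := by
  obtain ⟨F, hF⟩ := h
  intro P p hp hdim z hz hpz
  have hpure := pure_of_primitive hQ hp
  rw [hdim] at hpure
  refine inj_of_bb (upTo_of hF) hj hjJ hpure (generated_self (product_of_primitive hp) ?_) hz hpz
  rw [hdim]
  exact hjD

/-- **Uniqueness.** -/
theorem unique_of (hQ : ∀ V q, Q V q → IsBlock H Q V q) {F F' : Filtration C}
    (hF : IsBB H N J (Generated C Q D) F) (hF' : IsBB H N J (Generated C Q D) F')
    (hX : Generated C Q D X) {j : ℕ} (hj : (j : ℕ∞) ≤ J) (ν : ℕ) (z : C.A X) :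
    F.Mem j ν z ↔ F'.Mem j ν z := by
  have hP : ∀ (n : ℕ) (P : 𝒱.Obj) (p : C.A (P.prod P)), Part Q n P p → (n : ℕ∞) ≤ D →
      Generated C Q D P := by
    intro n P p hp hn
    obtain ⟨h1, h2⟩ := primitive_of_part hp
    refine generated_self (product_of_primitive h1) ?_
    rw [h2]
    exact hn
  have hdg := thr_generated hQ hX
  have h1 := bb_eq_fil (upTo_of hF) (sys_part hQ) hP hX hdg hj ν
  have h2 := bb_eq_fil (upTo_of hF') (sys_part hQ) hP hX hdg hj ν
  rw [Filtration.Mem, Filtration.Mem, h1, h2]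

omit hC hH in
/-- **Main theorem.** -/
theorem main (C : TheoryData.{u, v, 0} 𝒱 ℚ) [IsChowProj C] {K : Type w} [Field K]
    (H : WeilTheoryData.{u, v, w} C K) [IsWeilProj H] (N : Family C) (hN : IsAJKernel H N)
    (Q : ∀ V : 𝒱.Obj, C.A (V.prod V) → Prop) (hQ : ∀ V q, Q V q → IsBlock H Q V q)
    (hfib : FibreTheorem C) :
    (FiltrationExists H Q N ⊤ ⊤ ↔ ∀ j : ℕ, 2 ≤ j → AJInjectiveOn Q N j) ∧
    (∀ J : ℕ, ((∀ j : ℕ, 2 ≤ j → j ≤ 2 * J - 2 → AJInjectiveOn Q N j) → FiltrationExists H Q N ⊤ J) ∧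
      (FiltrationExists H Q N ⊤ J → ∀ j : ℕ, 2 ≤ j → j ≤ J → AJInjectiveOn Q N j)) ∧
    (∀ d : ℕ, ((∀ j : ℕ, 2 ≤ j → j ≤ d → AJInjectiveOn Q N j) → FiltrationExists H Q N d ⊤) ∧
      (FiltrationExists H Q N d ⊤ → ∀ j : ℕ, 2 ≤ j → 2 * j ≤ d + 1 → AJInjectiveOn Q N j)) ∧
    (∀ (d J : ℕ∞) (F F' : Filtration C), IsBB H N J (Generated C Q d) F →
      IsBB H N J (Generated C Q d) F' → ∀ X, Generated C Q d X → ∀ j : ℕ, (j : ℕ∞) ≤ J →
        ∀ (ν : ℕ) (z : C.A X), F.Mem j ν z ↔ F'.Mem j ν z) := by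
  refine ⟨⟨?_, ?_⟩, ?_, ?_, ?_⟩
  · intro h j hj
    exact injective_of hQ h hj le_top le_top
  · intro h
    exact exists_of (E := ⊤) hN hQ hfib (fun j hj _ => h j hj) (fun _ _ _ _ _ => le_top)
      fun _ _ _ _ _ _ _ _ _ _ _ _ _ => le_top
  · intro J
    constructor
    · intro h
      refine exists_of (E := ((max J (2 * J - 2) : ℕ) : ℕ∞)) hN hQ hfib ?_ ?_ ?_
      · intro j hj hjE
        have h1 : j ≤ max J (2 * J - 2) := by exact_mod_cast hjE
        exact h j hj (by omega)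
      · intro n i _ hi _
        have h1 : i ≤ J := by exact_mod_cast hi
        exact_mod_cast (by omega : i ≤ max J (2 * J - 2))
      · intro m n t l ν _ _ ht hl hν h1 h2 h3
        have h4 : t ≤ J := by exact_mod_cast ht
        have h5 : l ≤ J := by exact_mod_cast hl
        exact_mod_cast (by omega : m + l - t ≤ max J (2 * J - 2))
    · intro h j hj hjJ
      exact injective_of hQ h hj (by exact_mod_cast hjJ) le_top
  · intro d
    constructor
    · intro h
      refine exists_of (E := (d : ℕ∞)) hN hQ hfib ?_ ?_ ?_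
      · intro j hj hjE
        exact h j hj (by exact_mod_cast hjE)
      · intro n i hn _ hi
        have h1 : n ≤ d := by exact_mod_cast hn
        exact_mod_cast (by omega : i ≤ d)
      · intro m n t l ν hm hn _ _ hν h1 h2 h3
        have h4 : m ≤ d := by exact_mod_cast hm
        have h5 : n ≤ d := by exact_mod_cast hn
        exact_mod_cast (by omega : m + l - t ≤ d)
    · intro h j hj hjd
      exact injective_of hQ h hj le_top (by exact_mod_cast (by omega : 2 * j - 1 ≤ d))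
  · intro d J F F' hF hF' X hX j hj ν z
    exact unique_of hQ hF hF' hX hj ν z

end Pool.Agent.Hx18.CI
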