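import Pool.Agent.Hx18.CI.Fil

/-!
# Vanishing theorems for the Chow groups of products of primitive motives
-/

set_option autoImplicit false

open CategoryTheory AlgebraicGeometry

universe u v w

namespace Pool.Agent.Hx18.CI

open Pool.Agent.H914 Pool.Agent.H914.VarClass Pool.Agent.H914.VarClass.Obj Pool.Agent.W492.BB
  Pool.Agent.W550.Corr Pool.Agent.TH133 Pool.Agent.Y148.BB Pool.Agent.Hx18.BB

set_option linter.unusedSectionVars false
set_option linter.unusedVariables false

variable {k : Type u} [Field k] {𝒱 : VarClass k}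

section chow

variable {C : TheoryData.{u, v, 0} 𝒱 ℚ} [hC : IsChowProj C] {X Y Z W T P R V S : 𝒱.Obj}
  {Q : ∀ V : 𝒱.Obj, C.A (V.prod V) → Prop}

/-- Left-nested products of pieces. -/
inductive Part (Q : ∀ V : 𝒱.Obj, C.A (V.prod V) → Prop) :
    ℕ → (P : 𝒱.Obj) → C.A (P.prod P) → Prop
  | piece (T : 𝒱.Obj) (r : C.A (T.prod T)) (h : IsPiece Q T r) : Part Q T.dim T r
  | prod (n : ℕ) (P T : 𝒱.Obj) (p : C.A (P.prod P)) (r : C.A (T.prod T)) (hp : Part Q n P p)
      (hr : IsPiece Q T r) : Part Q (n + T.dim) (P.prod T) (TH133.tens C p r)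

include hC

lemma good_comp {q : C.A (V.prod V)} {i : T ⟶ V} {r : C.A (T.prod T)} (hi : IsGood Q q i r)
    (hq : tp C q = q) {z : C.A (P.prod V)} (hz : C.comp z q = z) :
    C.comp (C.pull (prodMap (𝟙 P) i) z) r = C.pull (prodMap (𝟙 P) i) z := by
  have e0 : C.pull (prodMap (𝟙 P) i) z = C.comp z (tp C (C.graph i)) := pull_eq_comp i z
  set w := C.pull (prodMap (𝟙 P) i) z with hw
  have h4 : C.comp q (tp C z) = tp C z := by
    conv_rhs => rw [← hz]
    rw [tp_comp C (ch_comm C), hq]
  have e2 : ∀ y : C.A T, C.act (tp C w) y = C.act (tp C z) (C.act q (C.push i y)) := by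
    intro y
    rw [e0, tp_comp C (ch_comm C), tp_tp, C.act_comp, C.act_graph, ← C.act_comp, h4]
  have h5 : Submodule.span ℚ {c | ∃ (l n : ℕ) (a b : C.A T), l + n = T.dim ∧ C.Deg l a ∧
      C.Deg n b ∧ C.act q (C.down i a) = 0 ∧ c = box a b} ≤
      LinearMap.ker (compL C (Z := T) w) := by
    rw [Submodule.span_le]
    rintro c ⟨l, n, a, b, -, -, -, h0, rfl⟩
    rw [SetLike.mem_coe, LinearMap.mem_ker]
    change C.comp w (C.ext a b) = 0
    rw [comp_ext, e2, show C.act q (C.push i a) = 0 from h0, C.act_map_zero,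
      TheoryData.ext_zero_left]
  have h6 := h5 hi.diagonal
  rw [LinearMap.mem_ker] at h6
  have h7 : C.comp w (dg C T - r) = 0 := h6
  rw [comp_sub, comp_dg] at h7
  exact (sub_eq_zero.1 h7).symm

lemma member_comp {q : C.A (V.prod V)} {i : T ⟶ V} {r : C.A (T.prod T)} (hi : IsMember Q q i r)
    {w : C.A (P.prod T)} (h1 : C.comp w r = 0)
    (h2 : ∀ (l n : ℕ) (a : C.A T), l + n = T.dim → T.dim ≤ 2 * n → C.Deg l a →
      C.act (tp C w) a = 0) : C.comp (C.push (prodMap (𝟙 P) i) w) q = 0 := by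
  have h5 : Submodule.span ℚ {c | ∃ (l n : ℕ) (a b : C.A T), l + n = T.dim ∧ C.Deg l a ∧
      C.Deg n b ∧ (T.dim ≤ 2 * n ∨ C.act q (C.down i b) = 0) ∧ c = box a b} ≤
      LinearMap.ker ((compL C (X := P)).flip (C.comp (C.graph i) q) ∘ₗ
        compL C (Z := T) w) := by
    rw [Submodule.span_le]
    rintro c ⟨l, n, a, b, hln, ha, hb, h0, rfl⟩
    rw [SetLike.mem_coe, LinearMap.mem_ker]
    change C.comp (C.comp w (C.ext a b)) (C.comp (C.graph i) q) = 0
    rw [comp_ext, ext_comp]
    rcases h0 with h0 | h0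
    · rw [h2 l n a hln h0 ha, TheoryData.ext_zero_left]
    · rw [C.act_comp, C.act_graph, show C.act q (C.push i b) = 0 from h0,
        TheoryData.ext_zero_right]
  have h6 := h5 hi.diagonal
  rw [LinearMap.mem_ker] at h6
  have h7 : C.comp (C.comp w (dg C T - r)) (C.comp (C.graph i) q) = 0 := h6
  rw [comp_sub, comp_dg, h1, sub_zero] at h7
  rw [← comp_graph, comp_assoc]
  exact h7

end chow

section weil

variable {C : TheoryData.{u, v, 0} 𝒱 ℚ} [hC : IsChowProj C] {K : Type w} [Field K]
  {H : WeilTheoryData.{u, v, w} C K} [hH : IsWeilProj H] {X Y Z W T P R V S : 𝒱.Obj}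
  {Q : ∀ V : 𝒱.Obj, C.A (V.prod V) → Prop} {N : ∀ X : 𝒱.Obj, ℕ → Submodule ℚ (C.A X)}
  {D : ℕ∞}

include hC hH

lemma isPure_block {q : C.A (V.prod V)} (h : IsBlock H Q V q) : IsPure H V.dim V q where
  dim_eq := rfl
  deg := h.deg
  idem := h.idem
  self_dual := h.self_dual
  kills := fun m hm a ha => h.kills m (by exact_mod_cast hm) a ha

lemma isPure_piece (hQ : ∀ V q, Q V q → IsBlock H Q V q) {r : C.A (T.prod T)}
    (h : IsPiece Q T r) : IsPure H T.dim T r := by
  rcases h with h | ⟨o, hT, ho, hd, rfl⟩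
  · exact isPure_block (hQ _ _ h)
  · rw [hT]
    exact isPure_curve hT ho (degreeOne_iff.1 hd)

lemma isPure_part (hQ : ∀ V q, Q V q → IsBlock H Q V q) {n : ℕ} {p : C.A (P.prod P)}
    (h : Part Q n P p) : IsPure H n P p := by
  induction h with
  | piece T r hr => exact isPure_piece hQ hr
  | prod n P T p r hp hr ih => exact ih.tens (isPure_piece hQ hr)

/-- A product of two parts is a direct summand of a part. -/
lemma part_prod (hQ : ∀ V q, Q V q → IsBlock H Q V q) {n m : ℕ} {p : C.A (P.prod P)}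
    {r : C.A (R.prod R)} (hp : Part Q n P p) (hr : Part Q m R r) :
    ∃ (R' : 𝒱.Obj) (r' : C.A (R'.prod R')), Part Q (n + m) R' r' ∧
      IsSummand (TH133.tens C p r) r' := by
  induction hr with
  | piece T r hr =>
    have h := isPure_part hQ (Part.prod n P T p r hp hr)
    exact ⟨_, _, Part.prod n P T p r hp hr, IsSummand.refl h.deg h.idem⟩
  | prod m R T r t hr ht ih =>
    obtain ⟨R', r', hR', hs⟩ := ih
    have h1 := isPure_part hQ hp
    have h2 := isPure_part hQ hr
    have h3 := isPure_piece hQ ht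
    refine ⟨_, _, by rw [← add_assoc]; exact Part.prod (n + m) R' T r' t hR' ht, ?_⟩
    refine (IsSummand.assoc h1.deg h2.deg h3.deg h1.idem h2.idem h3.idem).trans ?_
      (hs.tens h3.deg h3.idem)
    rw [tens_comp'', tens_comp'', h1.idem, h2.idem, h3.idem]

lemma one_le_piece (hQ : ∀ V q, Q V q → IsBlock H Q V q) {r : C.A (T.prod T)}
    (h : IsPiece Q T r) : 1 ≤ T.dim := by
  rcases h with h | ⟨o, hT, -, -, -⟩
  · exact one_le_two.trans (hQ _ _ h).two_le
  · exact hT.ge

lemma one_le_part (hQ : ∀ V q, Q V q → IsBlock H Q V q) {n : ℕ} {p : C.A (P.prod P)}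
    (h : Part Q n P p) : 1 ≤ n := by
  induction h with
  | piece T r hr => exact one_le_piece hQ hr
  | prod n P T p r hp hr ih => exact ih.trans (Nat.le_add_right _ _)

lemma sys_part (hQ : ∀ V q, Q V q → IsBlock H Q V q) : Sys H (Part Q) where
  pos := one_le_part hQ
  pure := isPure_part hQ
  prod := part_prod hQ

/-- The step for a block. -/
lemma block_step (hN : IsAbelJacobiKernel H N) (hQ : ∀ V q, Q V q → IsBlock H Q V q) {n : ℕ}
    {p : C.A (P.prod P)} (hp : IsPure H n P p) {q : C.A (V.prod V)} (hq : Q V q)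
    (hV : Van H N D n P p)
    (hV' : ∀ (T : 𝒱.Obj) (r : C.A (T.prod T)), IsPiece Q T r → T.dim + 1 = V.dim →
      Van H N D (n + T.dim) (P.prod T) (TH133.tens C p r)) {j : ℕ} (hj : (j : ℕ∞) ≤ D)
    {z : C.A (P.prod V)} (hz : C.Deg j z) (hpz : C.act (TH133.tens C p q) z = z)
    (h : 2 * j < n + V.dim ∨ (2 * j = n + V.dim ∧ H.cl z = 0)) : z = 0 := by
  have hb := hQ V q hq
  have hr := isPure_block hb
  have hpr := hp.tens hr
  obtain ⟨h1, h2⟩ := hp.fix hr hpz
  have hcl : H.cl z = 0 := by
    rcases h with h | h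
    · rw [← hpz, cl_act]
      refine hpr.kills (2 * j) ?_ _ (H.cl_mem hz)
      push_cast
      omega
    · exact h.2
  have hj1 : ∀ i : ℕ, i ≤ j → (i : ℕ∞) ≤ D := fun i hi =>
    ((by exact_mod_cast hi : (i : ℕ∞) ≤ (j : ℕ∞))).trans hj
  have hrest : ∀ (T : 𝒱.Obj) (i : T ⟶ V) (r : C.A (T.prod T)), IsGood Q q i r →
      C.up (prodMap (𝟙 P) i) z = 0 := by
    intro T i r hi
    have hdim := hi.dim_eq
    have hpure := isPure_piece hQ hi.piece
    have e0 : C.pull (prodMap (𝟙 P) i) z = C.comp z (tp C (C.graph i)) := pull_eq_comp i z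
    have e3 := good_comp hi hb.self_dual h2
    set w := C.pull (prodMap (𝟙 P) i) z with hw
    have hwd : w ∈ C.gr (P.prod T) j := C.pull_mem _ hz
    have e1 : C.comp p w = w := by rw [e0, ← comp_assoc, h1]
    have e4 : C.act (TH133.tens C p r) w = w := hp.fix_of e1 e3
    have hclw : H.cl w = 0 := by rw [hw, H.cl_pull, hcl, map_zero]
    have hVT := hV' T r hi.piece hdim
    change w = 0
    rcases lt_trichotomy (2 * j) (n + T.dim) with hlt | heq | hgt
    · exact hVT.low j hj hlt w hwd e4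
    · exact hVT.mid j hj heq w hwd e4 hclw
    · have h5 : 2 * j = n + V.dim := by
        rcases h with h | h
        · omega
        · exact h.1
      refine hVT.high j hj (by omega) w ?_ e4
      have hzN : z ∈ N (P.prod V) j := by
        rw [← hpz]
        refine hN.kills _ _ j j _ (mem_of_eq hpr.deg (by ring)) ?_ z hz hcl
        intro a ha
        refine hpr.kills _ ?_ a ha
        push_cast
        omega
      have h6 := hN.stable (P.prod V) (P.prod T) j j (C.cograph (prodMap (𝟙 P) i))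
        (mem_of_eq (cograph_mem _) (by ring)) z hzN
      rwa [C.act_cograph] at h6
  have h5 := hb.sections P j z hz h2 hrest
  have h6 : Submodule.span ℚ {c | ∃ (T : 𝒱.Obj) (i : T ⟶ V) (r : C.A (T.prod T))
      (w : C.A (P.prod T)), IsMember Q q i r ∧ C.Deg ((j : ℤ) - 1) w ∧
      c = C.down (prodMap (𝟙 P) i) w} ≤
      LinearMap.ker (C.actL (TH133.tens C p q)) := by
    rw [Submodule.span_le]
    rintro c ⟨T, i, r, w, hi, hw, rfl⟩
    rw [SetLike.mem_coe, LinearMap.mem_ker, TheoryData.actL_apply]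
    change C.act _ (C.push (prodMap (𝟙 P) i) w) = 0
    have hdim := hi.dim_eq
    have hpure := isPure_piece hQ hi.piece
    rw [act_tens C (ch_comm C), hp.self_dual, ← comp_graph, ← comp_assoc C p, comp_graph]
    set v := C.comp p w with hv
    have hvd : v ∈ C.gr (P.prod T) ((j : ℤ) - 1) := comp_memZ hp.deg hw (by ring)
    have hpv : C.comp p v = v := by rw [hv, ← comp_assoc, hp.idem]
    refine member_comp hi ?_ ?_
    · have e1 : C.act (TH133.tens C p r) (C.comp v r) = C.comp v r := by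
        refine hp.fix_of ?_ ?_
        · rw [← comp_assoc, hpv]
        · rw [comp_assoc, hpure.idem]
      have e2 : C.comp v r ∈ C.gr (P.prod T) ((j : ℤ) - 1) :=
        comp_memZ hvd hpure.deg (by ring)
      rcases Nat.eq_zero_or_pos j with h0 | h0
      · subst h0
        rw [C.gr_neg _ _ (by norm_num)] at e2
        exact (Submodule.mem_bot ℚ).1 e2
      · obtain ⟨i', rfl⟩ : ∃ i', j = i' + 1 := ⟨j - 1, by omega⟩
        exact (hV' T r hi.piece hdim).low i' (hj1 i' (by omega)) (by omega) _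
          (mem_of_eq e2 (by push_cast; ring)) e1
    · intro l m a hlm hm ha
      have e1 : C.act p (C.act (tp C v) a) = C.act (tp C v) a := by
        rw [← C.act_comp, tp_left hp hpv]
      have e2 : C.act (tp C v) a ∈ C.gr P ((j : ℤ) - 1 - m) := by
        refine act_memZ (tp_mem C hvd) ha ?_
        push_cast [← hlm]; ring
      rcases lt_or_ge j (1 + m) with h0 | h0
      · rw [C.gr_neg _ _ (by omega)] at e2
        exact (Submodule.mem_bot ℚ).1 e2
      · obtain ⟨i', rfl⟩ : ∃ i', j = i' + (1 + m) := ⟨j - (1 + m), by omega⟩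
        exact hV.low i' (hj1 i' (by omega)) (by omega) _
          (mem_of_eq e2 (by push_cast; ring)) e1
  have h9 := h6 h5
  rw [LinearMap.mem_ker, TheoryData.actL_apply, hpz] at h9
  exact h9

omit hH in
lemma act_ext_one {o : C.A X} (hd : HasDegree C o 1) (z : C.A Y) :
    C.act (C.ext (1 : C.A X) z) o = z := by
  rw [act_ext' (q := 1) (by rw [one_mul]; exact hd), one_smul]

/-- The vanishing properties of a single block. -/
lemma block_single (hN : IsAbelJacobiKernel H N) (hQ : ∀ V q, Q V q → IsBlock H Q V q)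
    {q : C.A (V.prod V)} (hq : Q V q)
    (hV' : ∀ (T : 𝒱.Obj) (r : C.A (T.prod T)), IsPiece Q T r → T.dim + 1 = V.dim →
      Van H N D T.dim T r) {j : ℕ} (hj : (j : ℕ∞) ≤ D)
    {z : C.A V} (hz : C.Deg j z) (hqz : C.act q z = z)
    (h : 2 * j < V.dim ∨ (2 * j = V.dim ∧ H.cl z = 0)) : z = 0 := by
  have hb := hQ V q hq
  have hr := isPure_block hb
  have htwo := hb.two_le
  obtain ⟨o, ho, hd⟩ := exists_point C V
  have hcl : H.cl z = 0 := by
    rcases h with h | h
    · rw [← hqz, cl_act]
      refine hr.kills (2 * j) ?_ _ (H.cl_mem hz)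
      omega
    · exact h.2
  have hj1 : ∀ i : ℕ, i ≤ j → (i : ℕ∞) ≤ D := fun i hi =>
    ((by exact_mod_cast hi : (i : ℕ∞) ≤ (j : ℕ∞))).trans hj
  have h2 : C.comp (C.ext (1 : C.A V) z) q = C.ext (1 : C.A V) z := by rw [ext_comp, hqz]
  have hrest : ∀ (T : 𝒱.Obj) (i : T ⟶ V) (r : C.A (T.prod T)), IsGood Q q i r →
      C.up (prodMap (𝟙 V) i) (C.ext (1 : C.A V) z) = 0 := by
    intro T i r hi
    have hdim := hi.dim_eq
    have e0 : C.pull (prodMap (𝟙 V) i) (C.ext (1 : C.A V) z) =
        C.ext (1 : C.A V) (C.pull i z) := by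
      rw [TheoryData.ext, map_mul, ← C.pull_comp, ← C.pull_comp, prodMap_fst, prodMap_snd,
        C.pull_comp, C.pull_comp, map_one, map_one, TheoryData.ext, map_one]
    have e3 := good_comp hi hb.self_dual h2
    rw [e0, ext_comp] at e3
    have e4 : C.act r (C.pull i z) = C.pull i z := by
      rw [← act_ext_one hd (C.act r (C.pull i z)), e3, act_ext_one hd]
    change C.pull (prodMap (𝟙 V) i) (C.ext (1 : C.A V) z) = 0
    rw [e0]
    have hwd : C.pull i z ∈ C.gr T j := C.pull_mem _ hz
    have hclw : H.cl (C.pull i z) = 0 := by rw [H.cl_pull, hcl, map_zero]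
    have hVT := hV' T r hi.piece hdim
    have key : C.pull i z = 0 := by
      rcases lt_trichotomy (2 * j) T.dim with hlt | heq | hgt
      · exact hVT.low j hj hlt _ hwd e4
      · exact hVT.mid j hj heq _ hwd e4 hclw
      · have h5 : 2 * j = V.dim := by
          rcases h with h | h
          · omega
          · exact h.1
        refine hVT.high j hj (by omega) _ ?_ e4
        have hzN : z ∈ N V j := by
          rw [← hqz]
          refine hN.kills _ _ j j _ (mem_of_eq hr.deg (by ring)) ?_ z hz hcl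
          intro a ha
          exact hr.kills _ (by omega) a ha
        have h6 := hN.stable V T j j (C.cograph i) (mem_of_eq (cograph_mem _) (by ring)) z hzN
        rwa [C.act_cograph] at h6
    rw [key, TheoryData.ext_zero_right]
  have hzd : C.ext (1 : C.A V) z ∈ C.gr (V.prod V) j :=
    mem_of_eq (ext_mem' (C.one_mem V) hz) (by ring)
  have h5 := hb.sections V j _ hzd h2 hrest
  have h6 : Submodule.span ℚ {c | ∃ (T : 𝒱.Obj) (i : T ⟶ V) (r : C.A (T.prod T))
      (w : C.A (V.prod T)), IsMember Q q i r ∧ C.Deg ((j : ℤ) - 1) w ∧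
      c = C.down (prodMap (𝟙 V) i) w} ≤
      LinearMap.ker (C.actL q ∘ₗ (actB C (X := V) (Y := V)).flip o) := by
    rw [Submodule.span_le]
    rintro c ⟨T, i, r, w, hi, hw, rfl⟩
    rw [SetLike.mem_coe, LinearMap.mem_ker]
    change C.act q (C.act (C.push (prodMap (𝟙 V) i) w) o) = 0
    have hdim := hi.dim_eq
    have hpure := isPure_piece hQ hi.piece
    set y := C.act w o with hy
    have hyd : y ∈ C.gr T ((j : ℤ) - 1) := act_memZ hw ho (by ring)
    rw [← comp_graph, C.act_comp, C.act_graph, ← hy]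
    have e5 : C.comp (C.push (prodMap (𝟙 V) i) (C.ext (1 : C.A V) y)) q = 0 := by
      refine member_comp hi ?_ ?_
      · rw [ext_comp]
        have e1 : C.act r (C.act r y) = C.act r y := by rw [← C.act_comp, hpure.idem]
        have e2 : C.act r y ∈ C.gr T ((j : ℤ) - 1) := act_memZ hpure.deg hyd (by ring)
        have e3 : C.act r y = 0 := by
          rcases Nat.eq_zero_or_pos j with h0 | h0
          · subst h0
            rw [C.gr_neg _ _ (by norm_num)] at e2
            exact (Submodule.mem_bot ℚ).1 e2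
          · obtain ⟨i', rfl⟩ : ∃ i', j = i' + 1 := ⟨j - 1, by omega⟩
            exact (hV' T r hi.piece hdim).low i' (hj1 i' (by omega)) (by omega) _
              (mem_of_eq e2 (by push_cast; ring)) e1
        rw [e3, TheoryData.ext_zero_right]
      · intro l m a hlm hm ha
        rw [tp_ext]
        have e1 : y * a ∈ C.gr T ((j : ℤ) - 1 + l) := C.mul_mem hyd ha
        refine act_ext_zero_of_lt e1 ?_
        omega
    rw [← comp_graph, ext_comp, ext_comp, C.act_graph] at e5
    rw [← act_ext_one hd (C.act q (C.push i y)), e5, C.act_zero]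
  have h9 := h6 h5
  rw [LinearMap.mem_ker] at h9
  have h10 : C.act q (C.act (C.ext (1 : C.A V) z) o) = 0 := h9
  rw [act_ext_one hd, hqz] at h10
  exact h10

/-- The condition on the injectivity of the Abel-Jacobi maps, in the codimensions at most `D`. -/
def PartInj (Q : ∀ V : 𝒱.Obj, C.A (V.prod V) → Prop)
    (N : ∀ X : 𝒱.Obj, ℕ → Submodule ℚ (C.A X)) (D : ℕ∞) : Prop :=
  ∀ j : ℕ, 2 ≤ j → (j : ℕ∞) ≤ D → ∀ (n : ℕ) (P : 𝒱.Obj) (p : C.A (P.prod P)), Part Q n P p →
    n + 1 = 2 * j → ∀ z ∈ N P j, C.act p z = z → z = 0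

lemma van_curve_piece (hN : IsAbelJacobiKernel H N) (hT : T.dim = 1) {o : C.A T}
    (ho : C.Deg 1 o) (hd : HasDegree C o 1) : Van H N D 1 T (oddProj C o) := by
  have hp := isPure_curve (H := H) hT ho hd
  refine ⟨?_, ?_, ?_⟩
  · intro j _ hjn z hz hpz
    obtain rfl : j = 0 := by omega
    exact zero_codim one_ne_zero hp (by exact_mod_cast hz) hpz
  · intro j _ hjn
    omega
  · intro j _ hjn z hz _
    obtain rfl : j = 1 := by omega
    exact hN.abel T z hz

/-- The vanishing properties of the pieces. -/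
theorem van_piece (hN : IsAbelJacobiKernel H N) (hQ : ∀ V q, Q V q → IsBlock H Q V q)
    (hinj : PartInj Q N D) : ∀ (m : ℕ) (T : 𝒱.Obj) (r : C.A (T.prod T)), IsPiece Q T r →
      T.dim = m → Van H N D T.dim T r := by
  intro m
  induction m with
  | zero =>
    intro T r h hT
    have := one_le_piece hQ h
    omega
  | succ m ih =>
    intro T r h hT
    rcases h with h | ⟨o, hT1, ho, hd, rfl⟩
    · have htwo := (hQ _ _ h).two_le
      have hV' : ∀ (T' : 𝒱.Obj) (r : C.A (T'.prod T')), IsPiece Q T' r → T'.dim + 1 = T.dim →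
          Van H N D T'.dim T' r := fun T' r' h' hd' => ih T' r' h' (by omega)
      refine ⟨?_, ?_, ?_⟩
      · intro j hj hjn z hz hpz
        exact block_single hN hQ h hV' hj hz hpz (Or.inl hjn)
      · intro j hj hjn z hz hpz hcl
        exact block_single hN hQ h hV' hj hz hpz (Or.inr ⟨hjn, hcl⟩)
      · intro j hj hjn z hz hpz
        exact hinj j (by omega) hj T.dim T r (Part.piece T r (Or.inl h)) hjn.symm z hz hpz
    · rw [hT1]
      exact van_curve_piece hN hT1 ho (degreeOne_iff.1 hd)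

/-- The vanishing properties of the products with a piece. -/
theorem van_prod (hfib : FibreProperty C) (hN : IsAbelJacobiKernel H N)
    (hQ : ∀ V q, Q V q → IsBlock H Q V q) (hinj : PartInj Q N D) {n : ℕ} {p : C.A (P.prod P)}
    (hp : Part Q n P p) (hV : Van H N D n P p) :
    ∀ (m : ℕ) (T : 𝒱.Obj) (r : C.A (T.prod T)), IsPiece Q T r → T.dim = m →
      Van H N D (n + T.dim) (P.prod T) (TH133.tens C p r) := by
  have hpp := isPure_part hQ hp
  have hn := one_le_part hQ hp
  intro m
  induction m with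
  | zero =>
    intro T r h hT
    have := one_le_piece hQ h
    omega
  | succ m ih =>
    intro T r h hT
    have hpos := one_le_piece hQ h
    have hhigh : ∀ j : ℕ, (j : ℕ∞) ≤ D → 2 * j = n + T.dim + 1 → ∀ z ∈ N (P.prod T) j,
        C.act (TH133.tens C p r) z = z → z = 0 := fun j hj hjn z hz hpz =>
      hinj j (by omega) hj _ _ _ (Part.prod n P T p r hp h) hjn.symm z hz hpz
    rcases h with h | ⟨o, hT1, ho, hd, rfl⟩
    · have hV' : ∀ (T' : 𝒱.Obj) (r : C.A (T'.prod T')), IsPiece Q T' r → T'.dim + 1 = T.dim →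
          Van H N D (n + T'.dim) (P.prod T') (TH133.tens C p r) :=
        fun T' r' h' hd' => ih T' r' h' (by omega)
      refine ⟨?_, ?_, hhigh⟩
      · intro j hj hjn z hz hpz
        exact block_step hN hQ hpp h hV hV' hj hz hpz (Or.inl hjn)
      · intro j hj hjn z hz hpz hcl
        exact block_step hN hQ hpp h hV hV' hj hz hpz (Or.inr ⟨hjn, hcl⟩)
    · have hd' := degreeOne_iff.1 hd
      rw [hT1] at hhigh ⊢
      refine ⟨?_, ?_, hhigh⟩
      · intro j hj hjn z hz hpz
        exact curve_step hfib hN hpp hT1 ho hd' hV hj hz hpz (Or.inl hjn)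
      · intro j hj hjn z hz hpz hcl
        exact curve_step hfib hN hpp hT1 ho hd' hV hj hz hpz (Or.inr ⟨hjn, hcl⟩)

/-- **The vanishing theorem.** -/
theorem van_part (hfib : FibreProperty C) (hN : IsAbelJacobiKernel H N)
    (hQ : ∀ V q, Q V q → IsBlock H Q V q) (hinj : PartInj Q N D) {n : ℕ}
    {p : C.A (P.prod P)} (h : Part Q n P p) : Van H N D n P p := by
  induction h with
  | piece T r hr => exact van_piece hN hQ hinj T.dim T r hr rfl
  | prod n P T p r hp hr ih => exact van_prod hfib hN hQ hinj hp ih T.dim T r hr rfl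

omit hH in
/-- The diagonal of a curve. -/
lemma thr_curve (hT : T.dim = 1) : dg C T ∈ thr C (Part Q) T.dim T := by
  obtain ⟨o, ho, hd⟩ := exists_point C T
  have ho' : C.Deg 1 o := by rw [hT] at ho; exact_mod_cast ho
  have hpart : Part Q T.dim T (oddProj C o) :=
    Part.piece T _ (Or.inr ⟨o, hT, ho', degreeOne_iff.2 hd, rfl⟩)
  rw [dg_curve o]
  refine Submodule.add_mem _ (Submodule.add_mem _ (mem_thr_self hpart) ?_) ?_
  · exact Submodule.subset_span (Or.inr ⟨0, o, 1, mem_of_eq ho (by simp),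
      mem_of_eq (C.one_mem T) (by simp), rfl⟩)
  · exact Submodule.subset_span (Or.inr ⟨1, 1, o, mem_of_eq (C.one_mem T) (by rw [hT]; simp),
      mem_of_eq ho (by rw [hT]), rfl⟩)

/-- The diagonal of a block. -/
lemma thr_block (hQ : ∀ V q, Q V q → IsBlock H Q V q) {q : C.A (V.prod V)} (hq : Q V q) :
    dg C V ∈ thr C (Part Q) V.dim V := by
  have hb := hQ V q hq
  have hpart : Part Q V.dim V q := Part.piece V q (Or.inl hq)
  have e0 : dg C V = (dg C V - q) + q := by abel
  rw [e0]
  refine Submodule.add_mem _ ?_ (mem_thr_self hpart)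
  refine (Submodule.span_le.2 ?_ : _ ≤ thr C (Part Q) V.dim V) hb.diagonal
  rintro c ⟨l, n, a, b, hln, ha, hb, rfl⟩
  exact Submodule.subset_span (Or.inr ⟨n, a, b, mem_of_eq ha (by push_cast [← hln]; ring),
    hb, rfl⟩)

/-- **The decomposition of the diagonal.** -/
theorem thr_product (hQ : ∀ V q, Q V q → IsBlock H Q V q) (h : IsProduct Q P) :
    dg C P ∈ thr C (Part Q) P.dim P := by
  induction h with
  | curve T hT => exact thr_curve hT
  | block V q h => exact thr_block hQ h
  | prod P T hP hT ih ih' =>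
    have h1 := thr_tens (sys_part hQ) ih ih'
    rw [tens_dg] at h1
    rwa [dim_prod]

theorem thr_generated (hQ : ∀ V q, Q V q → IsBlock H Q V q) {D : ℕ∞}
    (h : Generated C Q D X) : dg C X ∈ thr C (Part Q) D X :=
  thr_summand (S := IsProduct Q) (fun P hP => thr_product hQ hP) h

end weil

end Pool.Agent.Hx18.CI
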