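import Pool.Agent.Hx18.BB.Stmt

/-!
# Motives generated by curves and complete intersections: definitions
-/

set_option autoImplicit false

open CategoryTheory AlgebraicGeometry

universe u v w

namespace Pool.Agent.Hx18.CI

open Pool.Agent.H914 Pool.Agent.H914.VarClass Pool.Agent.H914.VarClass.Obj Pool.Agent.W492.BB
  Pool.Agent.W550.Corr Pool.Agent.TH133 Pool.Agent.Hx18.BB

noncomputable section

variable {k : Type u} [Field k] {𝒱 : VarClass k}

section basic

variable {C : TheoryData.{u, v, 0} 𝒱 ℚ} {X Y Z W T V : 𝒱.Obj}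

/-- `(T, r)` is the motive `h^1` of the curve `T`, or `Q T r`. -/
def IsPiece (Q : ∀ V : 𝒱.Obj, C.A (V.prod V) → Prop) (T : 𝒱.Obj) (r : C.A (T.prod T)) : Prop :=
  Q T r ∨ ∃ o : C.A T, T.dim = 1 ∧ C.Deg 1 o ∧ DegreeOne o ∧ r = oddPart o

/-- The map `i : T ⟶ V`, with the piece `(T, r)`, `dim T = dim V - 1`, is a good section of the
motive `(V, q)`: the correspondence `Δ_T - r` is a combination of products `a × b` with
`q_* i_* a = 0`. -/
structure IsGood (Q : ∀ V : 𝒱.Obj, C.A (V.prod V) → Prop) (q : C.A (V.prod V)) (i : T ⟶ V)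
    (r : C.A (T.prod T)) : Prop where
  piece : IsPiece Q T r
  dim_eq : T.dim + 1 = V.dim
  diagonal : InSpan (fun c => ∃ (l n : ℕ) (a b : C.A T), l + n = T.dim ∧ C.Deg l a ∧ C.Deg n b ∧
    C.act q (C.down i a) = 0 ∧ c = box a b) (diag C T - r)

/-- The map `i : T ⟶ V`, with the piece `(T, r)`, `dim T = dim V - 1`, is a member over the
motive `(V, q)`: the correspondence `Δ_T - r` is a combination of products `a × b` such that
`q_* i_* b = 0` or the codimension of `b` is at least half the dimension of `T`. -/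
structure IsMember (Q : ∀ V : 𝒱.Obj, C.A (V.prod V) → Prop) (q : C.A (V.prod V)) (i : T ⟶ V)
    (r : C.A (T.prod T)) : Prop where
  piece : IsPiece Q T r
  dim_eq : T.dim + 1 = V.dim
  diagonal : InSpan (fun c => ∃ (l n : ℕ) (a b : C.A T), l + n = T.dim ∧ C.Deg l a ∧ C.Deg n b ∧
    (T.dim ≤ 2 * n ∨ C.act q (C.down i b) = 0) ∧ c = box a b) (diag C T - r)

/-- The property of the Chow groups given by a pencil on the variety `V`, over an uncountable
algebraically closed field: a class on `P × V` of the motive `h(P) ⊗ (V, q)`, whose restrictions to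
`P × T` vanish for all good sections `T` (such as the smooth members of the pencil), is a
combination of push-forwards of classes on `P × T`, for members `T` (such as resolutions of the
components of the members of the pencil). -/
def SectionTheorem (Q : ∀ V : 𝒱.Obj, C.A (V.prod V) → Prop) (q : C.A (V.prod V)) : Prop :=
  ∀ (P : 𝒱.Obj) (j : ℤ) (z : C.A (P.prod V)), C.Deg j z → cmp z q = z →
    (∀ (T : 𝒱.Obj) (i : T ⟶ V) (r : C.A (T.prod T)), IsGood Q q i r →
      C.up (prodMap (𝟙 P) i) z = 0) →
    InSpan (fun c => ∃ (T : 𝒱.Obj) (i : T ⟶ V) (r : C.A (T.prod T)) (w : C.A (P.prod T)),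
      IsMember Q q i r ∧ C.Deg (j - 1) w ∧ c = C.down (prodMap (𝟙 P) i) w) z

/-- A product of curves and of varieties `V` such that `Q V q` for some `q`. -/
inductive IsProduct (Q : ∀ V : 𝒱.Obj, C.A (V.prod V) → Prop) : 𝒱.Obj → Prop
  | curve (T : 𝒱.Obj) (hT : T.dim = 1) : IsProduct Q T
  | block (V : 𝒱.Obj) (q : C.A (V.prod V)) (h : Q V q) : IsProduct Q V
  | prod (P R : 𝒱.Obj) (hP : IsProduct Q P) (hR : IsProduct Q R) : IsProduct Q (P.prod R)

/-- `IsPrimitive Q P p`: the motive `(P, p)` is a product, in any order, of motives `h^1(T)` of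
curves and of motives `(V, q)` with `Q V q`. -/
inductive IsPrimitive (Q : ∀ V : 𝒱.Obj, C.A (V.prod V) → Prop) :
    (P : 𝒱.Obj) → C.A (P.prod P) → Prop
  | piece (T : 𝒱.Obj) (r : C.A (T.prod T)) (h : IsPiece Q T r) : IsPrimitive Q T r
  | prod (P R : 𝒱.Obj) (p : C.A (P.prod P)) (r : C.A (R.prod R)) (hp : IsPrimitive Q P p)
      (hr : IsPrimitive Q R r) : IsPrimitive Q (P.prod R) (boxCorr p r)

/-- The varieties whose motives are direct summands of motives of products, of dimension at most
`d`, of curves and of varieties `V` with `Q V q` for some `q`. -/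
def Generated (C : TheoryData.{u, v, 0} 𝒱 ℚ) (Q : ∀ V : 𝒱.Obj, C.A (V.prod V) → Prop) (d : ℕ∞)
    (X : 𝒱.Obj) : Prop :=
  IsSummandOf C (fun P => IsProduct Q P ∧ (P.dim : ℕ∞) ≤ d) X

end basic

section weil

variable {C : TheoryData.{u, v, 0} 𝒱 ℚ} {K : Type w} [Field K] (H : WeilTheoryData.{u, v, w} C K)
  {X Y V : 𝒱.Obj}

/-- The motive `(V, q)`, `dim V = m ≥ 2`, is the primitive motive of a variety such as a complete
intersection: its cohomology is concentrated in the middle degree `m`, the correspondence `Δ_V - q`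
is a combination of products `a × b`, and `V` carries pencils of hypersurface sections. For a
complete intersection of degree `d`, `q = Δ_V - (1/d) (h^m × 1 + h^(m-1) × h + ⋯ + 1 × h^m)`. -/
structure IsBlock (Q : ∀ V : 𝒱.Obj, C.A (V.prod V) → Prop) (V : 𝒱.Obj) (q : C.A (V.prod V)) :
    Prop where
  two_le : 2 ≤ V.dim
  deg : C.Deg V.dim q
  idem : cmp q q = q
  self_dual : transp q = q
  kills : ∀ i : ℤ, i ≠ V.dim → Kills H q i
  diagonal : InSpan (fun c => ∃ (l n : ℕ) (a b : C.A V), l + n = V.dim ∧ C.Deg l a ∧ C.Deg n b ∧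
    c = box a b) (diag C V - q)
  sections : SectionTheorem Q q

/-- The injectivity of the Abel-Jacobi maps on `CH^j` of the primitive motives of dimension
`2 j - 1`. -/
def AJInjectiveOn (Q : ∀ V : 𝒱.Obj, C.A (V.prod V) → Prop) (N : Family C) (j : ℕ) : Prop :=
  ∀ (P : 𝒱.Obj) (p : C.A (P.prod P)), IsPrimitive Q P p → P.dim = 2 * j - 1 →
    ∀ z : C.A P, N.Mem j z → C.act p z = z → z = 0

/-- A Bloch-Beilinson filtration exists on the Chow groups of codimension at most `J` of the
varieties whose motives are direct summands of motives of products, of dimension at most `d`, of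
curves and of varieties `V` with `Q V q` for some `q`. -/
def FiltrationExists (Q : ∀ V : 𝒱.Obj, C.A (V.prod V) → Prop) (N : Family C) (d J : ℕ∞) : Prop :=
  ∃ F : Filtration C, IsBB H N J (Generated C Q d) F

end weil

end

end Pool.Agent.Hx18.CI
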