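import Pool.Agent.Hx18.BB.Dec
import Pool.Agent.Hx18.BB.Defs
import Pool.Agent.Hx18.CI.Stmt

/-!
# Systems of parts and decompositions of the diagonal
-/

set_option autoImplicit false

open CategoryTheory AlgebraicGeometry

universe u v w

namespace Pool.Agent.Hx18.CI

open Pool.Agent.H914 Pool.Agent.H914.VarClass Pool.Agent.H914.VarClass.Obj Pool.Agent.W492.BB
  Pool.Agent.W550.Corr Pool.Agent.TH133 Pool.Agent.Y148.BB Pool.Agent.Hx18.BB

set_option linter.unusedSectionVars false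

variable {k : Type u} [Field k] {𝒱 : VarClass k}

/-- The correspondence `z` factors through a twist of a part of weight at most `D`. -/
def Through (C : TheoryData.{u, v, 0} 𝒱 ℚ) (𝒬 : ℕ → ∀ P : 𝒱.Obj, C.A (P.prod P) → Prop) (D : ℕ∞)
    {X : 𝒱.Obj} (z : C.A (X.prod X)) : Prop :=
  ∃ (n : ℕ) (P : 𝒱.Obj) (p : C.A (P.prod P)) (c : ℕ) (a : C.A (X.prod P)) (b : C.A (P.prod X)),
    𝒬 n P p ∧ (n : ℕ∞) ≤ D ∧ C.Deg ((X.dim : ℤ) - c) a ∧ C.Deg ((P.dim : ℤ) + c) b ∧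
    z = C.comp a (C.comp p b)

/-- The combinations of correspondences through parts and of decomposable correspondences. -/
noncomputable def thr (C : TheoryData.{u, v, 0} 𝒱 ℚ)
    (𝒬 : ℕ → ∀ P : 𝒱.Obj, C.A (P.prod P) → Prop) (D : ℕ∞) (X : 𝒱.Obj) :
    Submodule ℚ (C.A (X.prod X)) :=
  Submodule.span ℚ {z | Through C 𝒬 D z ∨ Decomposable C z}

section chow

variable {C : TheoryData.{u, v, 0} 𝒱 ℚ} [hC : IsChowProj C] {X Y Z W T P R V S : 𝒱.Obj}
  {𝒬 : ℕ → ∀ P : 𝒱.Obj, C.A (P.prod P) → Prop} {D : ℕ∞}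

lemma thr_mono {D D' : ℕ∞} (h : D ≤ D') (X : 𝒱.Obj) : thr C 𝒬 D X ≤ thr C 𝒬 D' X := by
  apply Submodule.span_mono
  rintro z (⟨n, P, p, c, a, b, h1, h2, h3⟩ | hz)
  · exact Or.inl ⟨n, P, p, c, a, b, h1, h2.trans h, h3⟩
  · exact Or.inr hz

include hC

/-- Conjugation by correspondences of degree zero. -/
lemma thr_conj {f : C.A (X.prod P)} {g : C.A (P.prod X)} (hf : C.Deg X.dim f)
    (hg : C.Deg P.dim g) {z : C.A (P.prod P)} (hz : z ∈ thr C 𝒬 D P) :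
    C.comp f (C.comp z g) ∈ thr C 𝒬 D X := by
  have h : thr C 𝒬 D P ≤ (thr C 𝒬 D X).comap ((compL C f) ∘ₗ (compL C).flip g) := by
    rw [thr, Submodule.span_le]
    rintro z (⟨n, R, p, c, a, b, h1, h2, h3, h4, rfl⟩ | ⟨i, a, b, h3, h4, rfl⟩)
    · change C.comp f (C.comp (C.comp a (C.comp p b)) g) ∈ thr C 𝒬 D X
      apply Submodule.subset_span
      refine Or.inl ⟨n, R, p, c, C.comp f a, C.comp b g, h1, h2, ?_, ?_, ?_⟩
      · exact comp_memZ hf h3 (by ring)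
      · exact comp_memZ h4 hg (by ring)
      · rw [comp_assoc C f a, comp_assoc C a, comp_assoc C p]
    · change C.comp f (C.comp (C.ext a b) g) ∈ thr C 𝒬 D X
      apply Submodule.subset_span
      refine Or.inr ⟨i, C.act (tp C f) a, C.act g b, ?_, ?_, ?_⟩
      · exact act_memZ (tp_mem C hf) h3 (by ring)
      · exact act_memZ hg h4 (by ring)
      · rw [ext_comp, comp_ext]
  exact h hz

end chow

section weil

variable {C : TheoryData.{u, v, 0} 𝒱 ℚ} [hC : IsChowProj C] {K : Type w} [Field K]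
  {H : WeilTheoryData.{u, v, w} C K} [hH : IsWeilProj H] {X Y Z W T P R V S : 𝒱.Obj}
  {𝒬 : ℕ → ∀ P : 𝒱.Obj, C.A (P.prod P) → Prop}

/-- A system of parts. -/
structure Sys (H : WeilTheoryData.{u, v, w} C K) (𝒬 : ℕ → ∀ P : 𝒱.Obj, C.A (P.prod P) → Prop) :
    Prop where
  pos : ∀ {n : ℕ} {P : 𝒱.Obj} {p : C.A (P.prod P)}, 𝒬 n P p → 1 ≤ n
  pure : ∀ {n : ℕ} {P : 𝒱.Obj} {p : C.A (P.prod P)}, 𝒬 n P p → IsPure H n P p
  prod : ∀ {n m : ℕ} {P R : 𝒱.Obj} {p : C.A (P.prod P)} {r : C.A (R.prod R)}, 𝒬 n P p →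
    𝒬 m R r → ∃ (R' : 𝒱.Obj) (r' : C.A (R'.prod R')), 𝒬 (n + m) R' r' ∧
      IsSummand (TH133.tens C p r) r'

include hC hH

/-- External products. -/
lemma thr_tens (hQ : Sys H 𝒬) {B B' : ℕ} {Γ : C.A (X.prod X)}
    {Δ : C.A (Y.prod Y)} (hΓ : Γ ∈ thr C 𝒬 B X) (hΔ : Δ ∈ thr C 𝒬 B' Y) :
    TH133.tens C Γ Δ ∈ thr C 𝒬 ((B + B' : ℕ) : ℕ∞) (X.prod Y) := by
  have hdim : ((X.prod Y).dim : ℤ) = X.dim + Y.dim := by rw [dim_prod]; push_cast; ring
  have hBB : ∀ n : ℕ, (n : ℕ∞) ≤ B → (n : ℕ∞) ≤ ((B + B' : ℕ) : ℕ∞) := by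
    intro n hn
    have h1 : n ≤ B := by exact_mod_cast hn
    exact_mod_cast (by omega : n ≤ B + B')
  have hBB' : ∀ n : ℕ, (n : ℕ∞) ≤ B' → (n : ℕ∞) ≤ ((B + B' : ℕ) : ℕ∞) := by
    intro n hn
    have h1 : n ≤ B' := by exact_mod_cast hn
    exact_mod_cast (by omega : n ≤ B + B')
  have key : ∀ Γ : C.A (X.prod X), (Through C 𝒬 B Γ ∨ Decomposable C Γ) →
      ∀ Δ : C.A (Y.prod Y), (Through C 𝒬 B' Δ ∨ Decomposable C Δ) →
      TH133.tens C Γ Δ ∈ thr C 𝒬 ((B + B' : ℕ) : ℕ∞) (X.prod Y) := by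
    rintro Γ (⟨n, P, p, c, a, b, h1, h2, h3, h4, rfl⟩ | ⟨i, a, b, h3, h4, rfl⟩) Δ
      (⟨n', P', p', c', a', b', h1', h2', h3', h4', rfl⟩ | ⟨i', a', b', h3', h4', rfl⟩)
    · apply Submodule.subset_span
      have hp := hQ.pure h1
      have hp' := hQ.pure h1'
      obtain ⟨R, r, hR, f, g, hf, hg, hfg, hfr⟩ := hQ.prod h1 h1'
      have hdP : ((P.prod P').dim : ℤ) = P.dim + P'.dim := by rw [dim_prod]; push_cast; ring
      refine Or.inl ⟨n + n', R, r, c + c', C.comp (TH133.tens C a a') f,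
        C.comp g (TH133.tens C b b'), hR, ?_, ?_, ?_, ?_⟩
      · have h5 : n ≤ B := by exact_mod_cast h2
        have h6 : n' ≤ B' := by exact_mod_cast h2'
        exact_mod_cast (by omega : n + n' ≤ B + B')
      · refine comp_memZ (tens_mem C h3 h3') hf ?_
        rw [hdim]; push_cast; ring
      · refine comp_memZ hg (tens_mem C h4 h4') ?_
        rw [hdP]; push_cast; ring
      · rw [comp_assoc C _ f, ← comp_assoc C r g, ← comp_assoc C f (C.comp r g),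
          ← comp_assoc C f r g, hfr, hfg, tens_comp'', tens_comp'']
    · apply Submodule.subset_span
      refine Or.inl ⟨n, P, p, c + i', C.comp (wg C (fst X Y) (C.pull (snd X Y) a')) a,
        C.comp b (tp C (wg C (fst X Y) (C.pull (snd X Y) b'))), h1, hBB n h2, ?_, ?_, ?_⟩
      · refine comp_memZ (wg_memZ _ (C.pull_mem _ h3') rfl) h3 ?_
        rw [hdim]; push_cast; ring
      · refine comp_memZ h4 (tp_mem C (wg_memZ _ (C.pull_mem _ h4') rfl)) ?_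
        push_cast; ring
      · rw [tens_ext_right]
        simp only [comp_assoc]
    · apply Submodule.subset_span
      refine Or.inl ⟨n', P', p', c' + i, C.comp (wg C (snd X Y) (C.pull (fst X Y) a)) a',
        C.comp b' (tp C (wg C (snd X Y) (C.pull (fst X Y) b))), h1', hBB' n' h2', ?_, ?_, ?_⟩
      · refine comp_memZ (wg_memZ _ (C.pull_mem _ h3) rfl) h3' ?_
        rw [hdim]; push_cast; ring
      · refine comp_memZ h4' (tp_mem C (wg_memZ _ (C.pull_mem _ h4) rfl)) ?_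
        push_cast; ring
      · rw [tens_ext_left]
        simp only [comp_assoc]
    · apply Submodule.subset_span
      refine Or.inr ⟨i + i', C.ext a a', C.ext b b', ?_, ?_, ?_⟩
      · refine mem_of_eq (ext_mem' h3 h3') ?_
        rw [hdim]; push_cast; ring
      · refine mem_of_eq (ext_mem' h4 h4') ?_
        push_cast; ring
      · rw [tens_ext_ext]
  have h1 : ∀ Δ : C.A (Y.prod Y), (Through C 𝒬 B' Δ ∨ Decomposable C Δ) →
      thr C 𝒬 B X ≤ (thr C 𝒬 ((B + B' : ℕ) : ℕ∞) (X.prod Y)).comap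
        ((tensL (C := C) (X := X) (Y := X) (Z := Y) (W := Y)).flip Δ) := by
    intro Δ hΔ
    rw [thr, Submodule.span_le]
    intro Γ hΓ
    exact key Γ hΓ Δ hΔ
  have h2 : thr C 𝒬 B' Y ≤ (thr C 𝒬 ((B + B' : ℕ) : ℕ∞) (X.prod Y)).comap
      (tensL (C := C) (X := X) (Y := X) (Z := Y) (W := Y) Γ) := by
    rw [thr, Submodule.span_le]
    intro Δ hΔ
    exact h1 Δ hΔ hΓ
  exact h2 hΔ

omit hH in
lemma mem_thr_self {n : ℕ} {p : C.A (P.prod P)} (h : 𝒬 n P p) : p ∈ thr C 𝒬 n P := by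
  apply Submodule.subset_span
  refine Or.inl ⟨n, P, p, 0, dg C P, dg C P, h, le_refl _, ?_, ?_, ?_⟩
  · exact mem_of_eq (dg_mem C P) (by simp)
  · exact mem_of_eq (dg_mem C P) (by simp)
  · rw [comp_dg, dg_comp]

omit hH in
/-- Direct summands. -/
theorem thr_summand {S : 𝒱.Obj → Prop} (hS : ∀ P, S P → dg C P ∈ thr C 𝒬 P.dim P) {D : ℕ∞}
    (h : IsSummandOf C (fun P => S P ∧ (P.dim : ℕ∞) ≤ D) X) : dg C X ∈ thr C 𝒬 D X := by
  obtain ⟨P, ⟨hP, hD⟩, f, g, hf, hg, hfg⟩ := h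
  have h1 := thr_conj hf hg (thr_mono hD P (hS P hP))
  have h2 : C.comp f g = dg C X := hfg
  rwa [dg_comp, h2] at h1

end weil

end Pool.Agent.Hx18.CI
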